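import Mathlib

/-!
# MP_0aa4f4_co, Q1: the answer is no for every dimension `k ≥ 2`

Let `A` be a long segment in the first coordinate direction together with the `(k-1) t` points
`j e_l`, `2 ≤ l ≤ k`, `1 ≤ j ≤ t`. It is not contained in `t` parallel hyperplanes, but a subset
`A'` of size `O(√n)` has `|A' + A'| ≤ 2 n + O(k t √n)`.
-/

namespace Pool.Agent.Results.MP_0aa4f4_co.SmallSubsetsFail

open scoped Pointwise

/-- `A ⊆ ℤ^k` is contained in `t` parallel hyperplanes: there are a nonzero vector `v ∈ ℝ^k` and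
reals `s_1, ..., s_t` such that `⟨v, a⟩ ∈ {s_1, ..., s_t}` for every `a ∈ A`. -/
def InParallelHyperplanes {k : ℕ} (t : ℕ) (A : Finset (Fin k → ℤ)) : Prop :=
  ∃ (v : Fin k → ℝ) (s : Fin t → ℝ), v ≠ 0 ∧ ∀ a ∈ A, ∃ i, ∑ j, v j * (a j : ℝ) = s i

section construction

variable {k : ℕ} [NeZero k]

/-- The segment. -/
def seg (k : ℕ) [NeZero k] (m : ℕ) : Finset (Fin k → ℤ) :=
  (Finset.range m).image (fun i : ℕ => Pi.single (0 : Fin k) (i : ℤ))

/-- The extra points. -/
def ext (k : ℕ) [NeZero k] (t : ℕ) : Finset (Fin k → ℤ) :=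
  (((Finset.univ : Finset (Fin k)).erase 0) ×ˢ (Finset.Icc 1 t)).image
    (fun p => Pi.single p.1 (p.2 : ℤ))

theorem card_seg (m : ℕ) : (seg k m).card = m := by
  unfold seg
  rw [Finset.card_image_of_injective, Finset.card_range]
  intro a b hab
  have := Pi.single_injective (M := fun _ : Fin k => ℤ) 0 hab
  exact_mod_cast this

theorem card_ext_le (t : ℕ) : (ext k t).card ≤ k * t := by
  unfold ext
  refine Finset.card_image_le.trans ?_
  rw [Finset.card_product]
  refine Nat.mul_le_mul ?_ ?_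
  · refine (Finset.card_le_card (Finset.erase_subset _ _)).trans ?_
    simp
  · simp

theorem disjoint_seg_ext (m t : ℕ) : Disjoint (seg k m) (ext k t) := by
  rw [Finset.disjoint_left]
  intro x hx hx'
  unfold seg at hx
  unfold ext at hx'
  rw [Finset.mem_image] at hx hx'
  obtain ⟨i, -, rfl⟩ := hx
  obtain ⟨⟨l, j⟩, hp, e⟩ := hx'
  rw [Finset.mem_product, Finset.mem_erase, Finset.mem_Icc] at hp
  have h := congrFun e l
  simp only [Pi.single_eq_same] at h
  rw [Pi.single_eq_of_ne hp.1.1] at h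
  have : j = 0 := by exact_mod_cast h
  omega

theorem card_seg_add_seg (m : ℕ) : (seg k m + seg k m).card ≤ 2 * m := by
  have : seg k m + seg k m ⊆ seg k (2 * m) := by
    intro x hx
    obtain ⟨a, ha, b, hb, rfl⟩ := Finset.mem_add.1 hx
    unfold seg at ha hb ⊢
    rw [Finset.mem_image] at ha hb ⊢
    obtain ⟨i, hi, rfl⟩ := ha
    obtain ⟨j, hj, rfl⟩ := hb
    rw [Finset.mem_range] at hi hj
    refine ⟨i + j, Finset.mem_range.2 (by omega), ?_⟩
    rw [← Pi.single_add]
    push_cast
    rfl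
  exact (Finset.card_le_card this).trans (card_seg _).le

theorem add_subset {m t : ℕ} {A' : Finset (Fin k → ℤ)} (h : A' ⊆ seg k m ∪ ext k t) :
    A' + A' ⊆ (seg k m + seg k m) ∪ (ext k t + A') := by
  intro x hx
  obtain ⟨a, ha, b, hb, rfl⟩ := Finset.mem_add.1 hx
  rw [Finset.mem_union]
  rcases Finset.mem_union.1 (h ha) with h1 | h1
  · rcases Finset.mem_union.1 (h hb) with h2 | h2
    · exact Or.inl (Finset.add_mem_add h1 h2)
    · right
      rw [add_comm a b]
      exact Finset.add_mem_add h2 ha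
  · exact Or.inr (Finset.add_mem_add h1 hb)

theorem not_inParallel {m t : ℕ} (hm : t < m) :
    ¬ InParallelHyperplanes t (seg k m ∪ ext k t) := by
  rintro ⟨v, s, hv, hs⟩
  obtain ⟨l, hl⟩ : ∃ l, v l ≠ 0 := by
    by_contra hne
    push Not at hne
    exact hv (funext hne)
  have hmem : ∀ j : Fin (t + 1), (Pi.single l ((j : ℕ) : ℤ) : Fin k → ℤ) ∈ seg k m ∪ ext k t := by
    intro j
    rw [Finset.mem_union]
    by_cases h0 : l = 0
    · left
      subst h0
      exact Finset.mem_image.2 ⟨j, Finset.mem_range.2 (by omega), rfl⟩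
    · by_cases hj : (j : ℕ) = 0
      · left
        refine Finset.mem_image.2 ⟨0, Finset.mem_range.2 (by omega), ?_⟩
        rw [hj]
        simp
      · right
        refine Finset.mem_image.2 ⟨(l, (j : ℕ)), ?_, rfl⟩
        rw [Finset.mem_product, Finset.mem_erase, Finset.mem_Icc]
        exact ⟨⟨h0, Finset.mem_univ _⟩, by omega, by omega⟩
  choose f hf using fun j : Fin (t + 1) => hs _ (hmem j)
  have hinj : Function.Injective f := by
    intro a b hab
    have h1 := hf a
    have h2 := hf b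
    rw [hab] at h1
    have h3 := h1.trans h2.symm
    have key : ∀ j : ℤ, ∑ i, v i * (((Pi.single l j : Fin k → ℤ) i : ℤ) : ℝ) = v l * j := by
      intro j
      rw [Finset.sum_eq_single l]
      · rw [Pi.single_eq_same]
      · intro i _ hi
        rw [Pi.single_eq_of_ne hi]
        simp
      · intro hh
        exact absurd (Finset.mem_univ l) hh
    rw [key, key] at h3
    have h4 := mul_left_cancel₀ hl h3
    have h5 : (a : ℕ) = (b : ℕ) := by exact_mod_cast h4
    exact Fin.ext h5
  have := Fintype.card_le_of_injective f hinj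
  simp at this

end construction

/-- For every `k ≥ 2`, every `c` and every `ε < 2^k - 2` (for instance `ε = 1`): for every `t` and
all large `n` there is `A ⊆ ℤ^k` with `|A| = n`, not contained in `t` parallel hyperplanes, such
that every `A' ⊆ A` with `|A'| ≤ c √n` satisfies `|A' + A'| < (2^k - ε) n`. -/
theorem result :
    ∀ k : ℕ, 2 ≤ k → ∀ c ε : ℝ, ε < 2 ^ k - 2 → ∀ t : ℕ, ∃ N : ℕ, ∀ n : ℕ, N ≤ n →
      ∃ A : Finset (Fin k → ℤ), A.card = n ∧ ¬ InParallelHyperplanes t A ∧
        ∀ A' ⊆ A, (A'.card : ℝ) ≤ c * √(n : ℝ) →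
          ((A' + A').card : ℝ) < (2 ^ k - ε) * (n : ℝ) := by
  intro k hk c ε hε t
  haveI : NeZero k := ⟨by omega⟩
  set δ : ℝ := 2 ^ k - 2 - ε with hδ
  have hδ0 : 0 < δ := by rw [hδ]; linarith
  obtain ⟨N0, hN0⟩ := exists_nat_gt ((((k : ℝ) * t * |c| + 1) / δ) ^ 2)
  refine ⟨max (N0 + 1) (k * t + t + 1), ?_⟩
  intro n hn
  have hn1 : N0 + 1 ≤ n := le_trans (le_max_left _ _) hn
  have hn2 : k * t + t + 1 ≤ n := le_trans (le_max_right _ _) hn
  have hce := card_ext_le (k := k) t
  set m := n - (ext k t).card with hm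
  refine ⟨seg k m ∪ ext k t, ?_, not_inParallel (by omega), ?_⟩
  · rw [Finset.card_union_of_disjoint (disjoint_seg_ext m t), card_seg]
    omega
  intro A' hA' hc'
  have h1 := Finset.card_le_card (add_subset hA')
  have h2 := (Finset.card_union_le (seg k m + seg k m) (ext k t + A'))
  have h3 := card_seg_add_seg (k := k) m
  have h4 : (ext k t + A').card ≤ (ext k t).card * A'.card := Finset.card_add_le
  have h5 : (A' + A').card ≤ 2 * n + k * t * A'.card := by
    have h6 : (ext k t).card * A'.card ≤ k * t * A'.card := Nat.mul_le_mul_right _ hce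
    omega
  have h6 : ((A' + A').card : ℝ) ≤ 2 * n + k * t * A'.card := by exact_mod_cast h5
  have hnpos : (0 : ℝ) < n := by
    have : 0 < n := by omega
    exact_mod_cast this
  have hsq : √(n : ℝ) * √(n : ℝ) = n := Real.mul_self_sqrt hnpos.le
  have hsqpos : 0 < √(n : ℝ) := Real.sqrt_pos.2 hnpos
  have h7 : ((k : ℝ) * t * |c| + 1) / δ < √(n : ℝ) := by
    apply Real.lt_sqrt_of_sq_lt
    refine hN0.trans ?_
    have : N0 < n := by omega
    exact_mod_cast this
  have h8 : (k : ℝ) * t * |c| + 1 < δ * √(n : ℝ) := by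
    rw [div_lt_iff₀ hδ0] at h7
    linarith
  have h9 : (k : ℝ) * t * A'.card ≤ (k : ℝ) * t * (|c| * √(n : ℝ)) := by
    apply mul_le_mul_of_nonneg_left _ (by positivity)
    exact hc'.trans (mul_le_mul_of_nonneg_right (le_abs_self c) hsqpos.le)
  have h10 : (k : ℝ) * t * (|c| * √(n : ℝ)) < δ * n := by
    have h11 : ((k : ℝ) * t * |c|) * √(n : ℝ) < (δ * √(n : ℝ)) * √(n : ℝ) := by
      apply mul_lt_mul_of_pos_right _ hsqpos
      linarith
    calc (k : ℝ) * t * (|c| * √(n : ℝ)) = ((k : ℝ) * t * |c|) * √(n : ℝ) := by ring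
      _ < (δ * √(n : ℝ)) * √(n : ℝ) := h11
      _ = δ * n := by rw [mul_assoc, hsq]
  have h12 : (2 ^ k - ε) * (n : ℝ) = 2 * n + δ * n := by
    rw [hδ]
    ring
  rw [h12]
  linarith

end Pool.Agent.Results.MP_0aa4f4_co.SmallSubsetsFail
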